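import Mathlib
import Pool.Agent.H36R3.StarMain

set_option autoImplicit false

open Set Metric Filter Topology

namespace Pool.Agent.Results.MP_ad2f8c_co.ClearVisibility

variable {V : Type*} [NormedAddCommGroup V] [InnerProductSpace ℝ V]

/-- `y` sees `x` in `E`: the closed segment `[x, y]` is contained in `E`
(in particular `x` and `y` are points of `E`). -/
def Sees (E : Set V) (y x : V) : Prop := segment ℝ x y ⊆ E

/-- `E` is starshaped: some point of `E` sees every point of `E`. -/
def Starshaped (E : Set V) : Prop := ∃ y ∈ E, ∀ x ∈ E, Sees E y x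

/-- `x` is a locally non-convex (LNC) point of `E`: a boundary point of `E` such that
`B_r(x) ∩ E` fails to be convex for every `r > 0`. -/
def IsLNC (E : Set V) (x : V) : Prop :=
  x ∈ frontier E ∧ ∀ r : ℝ, 0 < r → ¬ Convex ℝ (ball x r ∩ E)

/-- `x` is clearly visible from the point `y` of `E`: there is `r > 0` such that `y` sees every
point of `B_r(x) ∩ E`. -/
def ClearlyVisible (E : Set V) (x y : V) : Prop :=
  y ∈ E ∧ ∃ r : ℝ, 0 < r ∧ ∀ z ∈ ball x r ∩ E, Sees E y z

/-- Property `C_n`: for any LNC points `x_1, ..., x_n` of `E` (not necessarily distinct) there is a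
single point of `E` from which all of them are clearly visible. -/
def PropertyC (n : ℕ) (E : Set V) : Prop :=
  ∀ x : Fin n → V, (∀ i, IsLNC E (x i)) → ∃ y ∈ E, ∀ i, ClearlyVisible E (x i) y

/-- The set of non-locally-convex points of a closed set consists of LNC points. -/
lemma isLNC_of {E : Set V} (hE : IsClosed E) {x : V} (hx : x ∈ E)
    (h : ∀ r : ℝ, 0 < r → ¬ Convex ℝ (ball x r ∩ E)) : IsLNC E x := by
  refine ⟨?_, h⟩
  rw [frontier, hE.closure_eq]
  refine ⟨hx, fun hint => ?_⟩
  obtain ⟨r, hr, hsub⟩ := Metric.isOpen_iff.1 isOpen_interior x hint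
  refine h r hr ?_
  have : ball x r ∩ E = ball x r :=
    inter_eq_left.2 (hsub.trans interior_subset)
  rw [this]
  exact convex_ball x r

/-- General form: in a finite-dimensional real inner product space of dimension at most `d`, a
compact connected set with property `C_{d+1}` is starshaped. -/
theorem starshaped_of_propertyC [FiniteDimensional ℝ V] {d : ℕ}
    (hd : Module.finrank ℝ V ≤ d) {E : Set V} (hE : IsCompact E) (hconn : IsConnected E)
    (hC : PropertyC (d + 1) E) : Starshaped E := by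
  classical
  set X : Set V := {x | x ∈ E ∧ ∀ r : ℝ, 0 < r → ¬ Convex ℝ (ball x r ∩ E)} with hX
  have hXE : X ⊆ E := fun x hx => hx.1
  have hXcl : IsClosed X := by
    rw [← closure_subset_iff_isClosed]
    intro x hx
    have hxE : x ∈ E := closure_minimal hXE hE.isClosed hx
    refine ⟨hxE, fun r hr hconv => ?_⟩
    obtain ⟨x', hx'X, hd'⟩ := Metric.mem_closure_iff.1 hx (r / 2) (by linarith)
    refine hx'X.2 (r / 2) (by linarith) ?_
    have : ball x' (r / 2) ∩ E = ball x' (r / 2) ∩ (ball x r ∩ E) := by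
      ext w
      constructor
      · rintro ⟨h1, h2⟩
        refine ⟨h1, ?_, h2⟩
        rw [mem_ball] at h1 ⊢
        calc dist w x ≤ dist w x' + dist x' x := dist_triangle _ _ _
          _ < r / 2 + r / 2 := add_lt_add h1 (by rw [dist_comm]; exact hd')
          _ = r := by ring
      · rintro ⟨h1, -, h2⟩; exact ⟨h1, h2⟩
    rw [this]
    exact (convex_ball _ _).inter hconv
  have hXc : IsCompact X := hE.of_isClosed_subset hXcl hXE
  have hLNC : ∀ x ∈ X, IsLNC E x := fun x hx => isLNC_of hE.isClosed hx.1 hx.2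
  -- it is enough to find a centre
  suffices h : ∃ y0 ∈ convexHull ℝ E, ∀ z ∈ E, ∃ r > 0,
      Convex ℝ (ball z r ∩ E) ∨ y0 ∈ Pool.Agent.H36R3.LocView E z r by
    obtain ⟨y0, hy0, hloc⟩ := h
    obtain ⟨R, hR, hG⟩ := Pool.Agent.H36R3.exists_good hE hloc
    have hG' : Pool.Agent.H36R3.Good E y0 (2 * (R / 2)) := by
      rw [mul_div_cancel₀ R two_ne_zero]; exact hG
    have hy0E := Pool.Agent.H36R3.center_mem hE hconn.isPreconnected hy0 (half_pos hR) hG'
    exact ⟨y0, hy0E, fun x hx =>
      Pool.Agent.H36R3.center_sees hE hconn.isPreconnected hy0E (half_pos hR) hG' x hx⟩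
  rcases X.eq_empty_or_nonempty with hemp | hXne
  · obtain ⟨y0, hy0⟩ := hconn.nonempty
    refine ⟨y0, subset_convexHull ℝ E hy0, fun z hz => ?_⟩
    by_contra hcon
    push Not at hcon
    have : z ∈ X := ⟨hz, fun r hr => (hcon r hr).1⟩
    rw [hemp] at this
    exact this
  -- a finite set of viewers good for all `(d+1)`-tuples
  have hfin : ∃ Y : Finset V, (∀ y ∈ Y, y ∈ E) ∧
      ∀ g : Fin (d + 1) → V, (∀ i, g i ∈ X) → ∃ y ∈ Y, ∀ i, ClearlyVisible E (g i) y := by
    have hK : IsCompact (Set.pi univ (fun _ : Fin (d + 1) => X)) := isCompact_univ_pi fun _ => hXc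
    have hchoice : ∀ f : Fin (d + 1) → V, f ∈ Set.pi univ (fun _ : Fin (d + 1) => X) →
        ∃ y ∈ E, ∃ r : Fin (d + 1) → ℝ, (∀ i, 0 < r i) ∧
          ∀ i, ∀ z ∈ ball (f i) (r i) ∩ E, Sees E y z := by
      intro f hf
      obtain ⟨y, hyE, hy⟩ := hC f (fun i => hLNC _ (hf i (mem_univ i)))
      choose _ r hr hr' using hy
      exact ⟨y, hyE, r, hr, hr'⟩
    choose! yf hyfE rf hrf hview using hchoice
    obtain ⟨t, htK, htcov⟩ := hK.elim_nhds_subcover
      (fun f => Set.pi univ (fun i => ball (f i) (rf f i)))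
      (fun f hf => by
        refine set_pi_mem_nhds finite_univ fun i _ => ?_
        exact ball_mem_nhds _ (hrf f hf i))
    refine ⟨t.image yf, ?_, ?_⟩
    · intro y hy
      obtain ⟨f, hf, rfl⟩ := Finset.mem_image.1 hy
      exact hyfE f (htK f hf)
    · intro g hg
      have hgK : g ∈ Set.pi univ (fun _ : Fin (d + 1) => X) := fun i _ => hg i
      obtain ⟨f, hft, hgf⟩ := mem_iUnion₂.1 (htcov hgK)
      refine ⟨yf f, Finset.mem_image_of_mem _ hft, fun i => ⟨hyfE f (htK f hft), ?_⟩⟩
      have hgi : dist (g i) (f i) < rf f i := hgf i (mem_univ i)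
      refine ⟨rf f i - dist (g i) (f i), by linarith, fun z hz => ?_⟩
      refine hview f (htK f hft) i z ⟨?_, hz.2⟩
      have h1 : dist z (g i) < rf f i - dist (g i) (f i) := hz.1
      rw [mem_ball]
      calc dist z (f i) ≤ dist z (g i) + dist (g i) (f i) := dist_triangle _ _ _
        _ < rf f i := by linarith
  obtain ⟨Y, hYE, hY⟩ := hfin
  set S : X → Set V := fun x => {y | y ∈ Y ∧ ClearlyVisible E (x : V) y} with hS
  have hSfin : ∀ x, (S x).Finite := fun x => Y.finite_toSet.subset fun y hy => hy.1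
  have hhelly : (⋂ x : X, convexHull ℝ (S x)).Nonempty := by
    have hcvx : ∀ x : X, Convex ℝ (convexHull ℝ (S x)) := fun x => convex_convexHull ℝ _
    have hcpt : ∀ x : X, IsCompact (convexHull ℝ (S x)) :=
      fun x => (hSfin x).isCompact_convexHull ℝ
    refine Convex.helly_theorem_compact' hcvx hcpt ?_
    intro I hI
    rcases I.eq_empty_or_nonempty with rfl | hIne
    · simp
    · have hcard : Fintype.card I ≤ Fintype.card (Fin (d + 1)) := by
        rw [Fintype.card_coe, Fintype.card_fin]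
        omega
      obtain ⟨e⟩ := Function.Embedding.nonempty_of_card_le hcard
      have : Nonempty I := hIne.to_subtype
      obtain ⟨g, hg⟩ := e.injective.hasLeftInverse
      obtain ⟨y, hyY, hy⟩ := hY (fun j => ((g j : X) : V)) (fun j => (g j : X).2)
      refine ⟨y, mem_iInter₂.2 fun x hx => subset_convexHull ℝ _ ⟨hyY, ?_⟩⟩
      have := hy (e ⟨x, hx⟩)
      rw [hg] at this
      exact this
  obtain ⟨y0, hy0⟩ := hhelly
  have hy0' : ∀ x : X, y0 ∈ convexHull ℝ (S x) := mem_iInter.1 hy0
  refine ⟨y0, ?_, ?_⟩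
  · obtain ⟨x0, hx0⟩ := hXne
    exact convexHull_mono (fun y hy => hYE y hy.1) (hy0' ⟨x0, hx0⟩)
  · intro z hz
    by_cases hzX : z ∈ X
    · have hev : ∀ y ∈ S ⟨z, hzX⟩, ∀ᶠ r in 𝓝[>] (0:ℝ), y ∈ Pool.Agent.H36R3.LocView E z r := by
        rintro y ⟨_, _, r, hr, hview⟩
        have h1 : ∀ᶠ r' in 𝓝[>] (0:ℝ), r' < r := by
          have : Tendsto (fun t : ℝ => t) (𝓝[>] (0:ℝ)) (𝓝 0) := nhdsWithin_le_nhds
          exact this.eventually (gt_mem_nhds hr)
        filter_upwards [h1] with r' hr'
        intro q hq w hw _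
        exact hview q ⟨ball_subset_ball hr'.le hq.2, hq.1⟩ hw
      have hall := (Filter.eventually_all_finite (hSfin ⟨z, hzX⟩)).2 hev
      obtain ⟨r, hr, hr0⟩ := (hall.and (eventually_mem_nhdsWithin (a := (0:ℝ)) (s := Ioi 0))).exists
      refine ⟨r, hr0, Or.inr ?_⟩
      exact convexHull_min hr (Pool.Agent.H36R3.convex_locView hE.isClosed z r) (hy0' ⟨z, hzX⟩)
    · have : ∃ r : ℝ, 0 < r ∧ Convex ℝ (ball z r ∩ E) := by
        by_contra hcon
        push Not at hcon
        exact hzX ⟨hz, hcon⟩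
      obtain ⟨r, hr, hconv⟩ := this
      exact ⟨r, hr, Or.inl hconv⟩

/-- **Main theorem.** For every dimension `d`, every compact connected set in `ℝ^d` with property
`C_{d+1}` is starshaped; so `n(d) = d + 1` answers the question affirmatively. -/
theorem result : ∀ (d : ℕ) (E : Set (EuclideanSpace ℝ (Fin d))), IsCompact E → IsConnected E →
    PropertyC (d + 1) E → Starshaped E := by
  intro d E hE hconn hC
  exact starshaped_of_propertyC (by simp) hE hconn hC

end Pool.Agent.Results.MP_ad2f8c_co.ClearVisibility
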